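import Pool.Agent.R419.CF.NS

/-!
# The criterion for the products of powers of given primes, in terms of a determinant over the field with
# three elements
-/

set_option autoImplicit false

open scoped Classical

namespace Pool.Agent.T2H26.CM

open Pool.Agent.Y703.CX (LamP lam)
open Pool.Agent.R419.CF (GdW SolW wt ClW ClG)
open Pool.Agent.R419.CF.NS (MD)
open Pool.Agent.Y703.CT (Cls NoSplit Base)

section fac

variable {κ : Type} {S : Finset κ} {P E : κ → ℕ}

theorem fac_apply (hP : ∀ k, (P k).Prime) (r : ℕ) :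
    (∏ k ∈ S, P k ^ E k).factorization r = ∑ k ∈ S, if P k = r then E k else 0 := by
  rw [Nat.factorization_prod fun k _ => pow_ne_zero _ (hP k).ne_zero, Finsupp.finsetSum_apply]
  refine Finset.sum_congr rfl fun k _ => ?_
  rw [(hP k).factorization_pow, Finsupp.single_apply]

theorem prod_ne (hP : ∀ k, (P k).Prime) : ∏ k ∈ S, P k ^ E k ≠ 0 :=
  Finset.prod_ne_zero_iff.2 fun k _ => pow_ne_zero _ (hP k).ne_zero

theorem fac_at (hP : ∀ k, (P k).Prime) (hinj : Function.Injective P) {k : κ} (hk : k ∈ S) :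
    (∏ k ∈ S, P k ^ E k).factorization (P k) = E k := by
  rw [fac_apply hP, Finset.sum_eq_single_of_mem k hk fun j _ hj => if_neg fun h => hj (hinj h),
    if_pos rfl]

theorem mem_pf (hP : ∀ k, (P k).Prime) (hE : ∀ k, E k = 1 ∨ E k = 2) :
    (∏ k ∈ S, P k ^ E k).primeFactors = S.image P := by
  ext r
  rw [Nat.mem_primeFactors, Finset.mem_image]
  constructor
  · rintro ⟨hr, hd, -⟩
    obtain ⟨k, hk, hkr⟩ := (hr.prime.dvd_finsetProd_iff _).1 hd
    exact ⟨k, hk, ((Nat.prime_dvd_prime_iff_eq hr (hP k)).1 (hr.dvd_of_dvd_pow hkr)).symm⟩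
  · rintro ⟨k, hk, rfl⟩
    refine ⟨hP k, (dvd_pow_self _ ?_).trans (Finset.dvd_prod_of_mem _ hk), prod_ne hP⟩
    rcases hE k with h | h <;> omega

theorem sq_dvd (hP : ∀ k, (P k).Prime) (hinj : Function.Injective P) {k : κ} (hk : k ∈ S) :
    P k ^ 2 ∣ (∏ k ∈ S, P k ^ E k) ↔ 2 ≤ E k := by
  rw [(hP k).pow_dvd_iff_le_factorization (prod_ne hP), fac_at hP hinj hk]

theorem cube_free (hP : ∀ k, (P k).Prime) (hinj : Function.Injective P)
    (hE : ∀ k, E k = 1 ∨ E k = 2) (r : ℕ) (hr : r.Prime) : ¬ r ^ 3 ∣ (∏ k ∈ S, P k ^ E k) := by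
  rw [hr.pow_dvd_iff_le_factorization (prod_ne hP)]
  intro h
  by_cases h1 : ∃ k ∈ S, P k = r
  · obtain ⟨k, hk, rfl⟩ := h1
    rw [fac_at hP hinj hk] at h
    rcases hE k with h2 | h2 <;> omega
  · push Not at h1
    rw [fac_apply hP, Finset.sum_eq_zero fun k hk => if_neg (h1 k hk)] at h
    omega

theorem wt_eq (hP : ∀ k, (P k).Prime) (hinj : Function.Injective P)
    (hE : ∀ k, E k = 1 ∨ E k = 2) {k : κ} (hk : k ∈ S) :
    wt (MD (∏ k ∈ S, P k ^ E k)) (P k) = (E k : ZMod 3) := by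
  unfold wt MD
  have h1 : P k ∈ (∏ k ∈ S, P k ^ E k).primeFactors := by
    rw [mem_pf hP hE]
    exact Finset.mem_image_of_mem P hk
  rcases hE k with h | h
  · rw [if_neg, h, Nat.cast_one]
    rw [Finset.mem_filter, sq_dvd hP hinj hk]
    omega
  · rw [if_pos, h]
    · rfl
    · rw [Finset.mem_filter, sq_dvd hP hinj hk]
      exact ⟨h1, by omega⟩

end fac

/-- the primes `q`, `p_i` -/
def PP (q : ℕ) (p : ℕ → ℕ) : Option ℕ → ℕ := fun k => k.elim q p

/-- the exponents -/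
def EE (f : ℕ) (e : ℕ → ℕ) : Option ℕ → ℕ := fun k => k.elim f e

/-- the product `q ^ f ∏ p_i ^ e_i` over `i ∈ I` -/
def DD (q : ℕ) (p : ℕ → ℕ) (f : ℕ) (e : ℕ → ℕ) (I : Finset ℕ) : ℕ := q ^ f * ∏ i ∈ I, p i ^ e i

/-- the matrix: `- e_j A_ij` off the diagonal, and `f d_i + ∑_{k ≠ i} e_k A_ik` on the diagonal -/
def lapl (A : ℕ → ℕ → ZMod 3) (d : ℕ → ZMod 3) (f : ℕ) (e : ℕ → ℕ) (I : Finset ℕ) :
    Matrix I I (ZMod 3) := fun i j =>
  if (i : ℕ) = j then (f : ZMod 3) * d i + ∑ k ∈ I.erase i, (e k : ZMod 3) * A i k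
  else -((e j : ZMod 3) * A i j)

theorem DD_eq (q : ℕ) (p : ℕ → ℕ) (f : ℕ) (e : ℕ → ℕ) (I : Finset ℕ) :
    DD q p f e I = ∏ k ∈ Finset.insertNone I, PP q p k ^ EE f e k := by
  unfold DD
  rw [Finset.prod_insertNone]
  rfl

theorem lapl_mul (A : ℕ → ℕ → ZMod 3) (d : ℕ → ZMod 3) (f : ℕ) (e : ℕ → ℕ) (I : Finset ℕ)
    (v : ℕ → ZMod 3) (i : I) :
    (lapl A d f e I).mulVec (fun j => v j) i =
      (f : ZMod 3) * d i * v i + ∑ j ∈ I, (v i - v j) * ((e j : ZMod 3) * A i j) := by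
  unfold Matrix.mulVec dotProduct lapl
  rw [Finset.sum_coe_sort I (fun j => (if (i : ℕ) = j then
    (f : ZMod 3) * d i + ∑ k ∈ I.erase i, (e k : ZMod 3) * A i k else -((e j : ZMod 3) * A i j)) *
      v j), ← Finset.add_sum_erase I _ i.2, ← Finset.add_sum_erase I _ i.2, if_pos rfl, sub_self,
    zero_mul, zero_add, add_mul, add_assoc]
  congr 1
  rw [Finset.sum_mul, ← Finset.sum_add_distrib]
  refine Finset.sum_congr rfl fun j hj => ?_
  rw [if_neg (Finset.ne_of_mem_erase hj).symm]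
  ring

section crit

variable {q : ℕ} {p : ℕ → ℕ} {χ : ℕ → ℕ → ZMod 3} {A : ℕ → ℕ → ZMod 3} {d : ℕ → ZMod 3}

/-- the hypotheses -/
structure Hyp (q : ℕ) (p : ℕ → ℕ) (A : ℕ → ℕ → ZMod 3) (d : ℕ → ZMod 3) : Prop where
  hq : q.Prime
  q3 : q % 3 = 2
  hp : ∀ i, (p i).Prime ∧ p i % 3 = 1
  inj : Function.Injective p
  lg : ∀ i, ∃ s : ZMod 3, s ≠ 0 ∧ lam (p i) q = s * d i ∧ ∀ j, j ≠ i → lam (p i) (p j) = s * A i j

theorem Hyp.PPp (h : Hyp q p A d) (k : Option ℕ) : (PP q p k).Prime := by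
  rcases k with _ | k
  · exact h.hq
  · exact (h.hp k).1

theorem Hyp.ne (h : Hyp q p A d) (i : ℕ) : p i ≠ q := by
  intro h1
  have h2 := (h.hp i).2
  rw [h1, h.q3] at h2
  omega

theorem Hyp.PPi (h : Hyp q p A d) : Function.Injective (PP q p) := by
  rintro (_ | i) (_ | j) hij
  · rfl
  · exact absurd hij.symm (h.ne j)
  · exact absurd hij (h.ne i)
  · exact congrArg some (h.inj hij)

theorem EEp {f : ℕ} {e : ℕ → ℕ} (hf : f = 1 ∨ f = 2) (he : ∀ i, e i = 1 ∨ e i = 2)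
    (k : Option ℕ) : EE f e k = 1 ∨ EE f e k = 2 := by
  rcases k with _ | k
  · exact hf
  · exact he k

theorem Hyp.cls (h : Hyp q p A d) {f : ℕ} {e : ℕ → ℕ} (hf : f = 1 ∨ f = 2)
    (he : ∀ i, e i = 1 ∨ e i = 2) (I : Finset ℕ) (h1 : DD q p f e I % 9 ≠ 1)
    (h8 : DD q p f e I % 9 ≠ 8) : Cls (DD q p f e I) := by
  have hpf : (DD q p f e I).primeFactors = (Finset.insertNone I).image (PP q p) := by
    rw [DD_eq]
    exact mem_pf h.PPp (EEp hf he)
  have h0 : DD q p f e I ≠ 0 := by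
    rw [DD_eq]
    exact prod_ne h.PPp
  have hmem : ∀ r : ℕ, r.Prime → r ∣ DD q p f e I → r = q ∨ ∃ i, r = p i := by
    intro r hr hd
    have h2 : r ∈ (DD q p f e I).primeFactors := Nat.mem_primeFactors.2 ⟨hr, hd, h0⟩
    rw [hpf, Finset.mem_image] at h2
    obtain ⟨k, -, hk⟩ := h2
    rcases k with _ | k
    · exact Or.inl hk.symm
    · exact Or.inr ⟨k, hk.symm⟩
  refine ⟨⟨h0, ?_, ?_⟩, h1, h8, q, h.hq, h.q3, ?_, ?_⟩
  · intro h3
    rcases hmem 3 Nat.prime_three h3 with h4 | ⟨i, h4⟩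
    · have := h.q3
      omega
    · have := (h.hp i).2
      omega
  · rw [DD_eq]
    exact cube_free h.PPp h.PPi (EEp hf he)
  · unfold DD
    exact (dvd_pow_self _ (by rcases hf with h | h <;> omega)).mul_right _
  · intro r hr hd hne
    rcases hmem r hr hd with h4 | ⟨i, rfl⟩
    · exact absurd h4 hne
    · exact (h.hp i).2

theorem Hyp.sum (h : Hyp q p A d) {f : ℕ} {e : ℕ → ℕ} (hf : f = 1 ∨ f = 2)
    (he : ∀ i, e i = 1 ∨ e i = 2) (I : Finset ℕ) (c : ℕ → ZMod 3) {i : ℕ} (hi : i ∈ I) :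
    (∑ r ∈ (DD q p f e I).primeFactors, (c r - c (p i)) *
      (wt (MD (DD q p f e I)) r * lam (p i) r) = 0) ↔
    (lapl A d f e I).mulVec (fun j => c (p j) - c q) ⟨i, hi⟩ = 0 := by
  obtain ⟨s, hs, h1, h2⟩ := h.lg i
  have hpf : (DD q p f e I).primeFactors = (Finset.insertNone I).image (PP q p) := by
    rw [DD_eq]
    exact mem_pf h.PPp (EEp hf he)
  rw [hpf, Finset.sum_image fun _ _ _ _ hh => h.PPi hh, Finset.sum_insertNone]
  rw [lapl_mul A d f e I (fun j => c (p j) - c q) ⟨i, hi⟩]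
  have e0 : wt (MD (DD q p f e I)) (PP q p none) = (f : ZMod 3) := by
    rw [DD_eq]
    exact wt_eq h.PPp h.PPi (EEp hf he) (Finset.mem_insertNone.2 (by simp))
  have e1 : ∀ j ∈ I, wt (MD (DD q p f e I)) (PP q p (some j)) = (e j : ZMod 3) := by
    intro j hj
    rw [DD_eq]
    exact wt_eq h.PPp h.PPi (EEp hf he) (Finset.mem_insertNone.2 (by simpa using hj))
  have e2 : (c (PP q p none) - c (p i)) * (wt (MD (DD q p f e I)) (PP q p none) *
      lam (p i) (PP q p none)) = -(s * ((f : ZMod 3) * d i * (c (p i) - c q))) := by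
    rw [e0]
    show (c q - c (p i)) * ((f : ZMod 3) * lam (p i) q) = _
    rw [h1]
    ring
  have e3 : ∑ j ∈ I, (c (PP q p (some j)) - c (p i)) * (wt (MD (DD q p f e I)) (PP q p (some j)) *
      lam (p i) (PP q p (some j))) =
      -(s * ∑ j ∈ I, ((c (p i) - c q) - (c (p j) - c q)) * ((e j : ZMod 3) * A i j)) := by
    rw [Finset.mul_sum, ← Finset.sum_neg_distrib]
    refine Finset.sum_congr rfl fun j hj => ?_
    rw [e1 j hj]
    show (c (p j) - c (p i)) * ((e j : ZMod 3) * lam (p i) (p j)) = _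
    by_cases hji : j = i
    · subst hji
      ring
    · rw [h2 j hji]
      ring
  rw [e2, e3, ← neg_add, ← mul_add, neg_eq_zero, mul_eq_zero, or_iff_right hs]

/-- **The criterion.** -/
theorem Hyp.crit (h : Hyp q p A d) (hL : LamP) {f : ℕ} {e : ℕ → ℕ} (hf : f = 1 ∨ f = 2)
    (he : ∀ i, e i = 1 ∨ e i = 2) (I : Finset ℕ) (h1 : DD q p f e I % 9 ≠ 1)
    (h8 : DD q p f e I % 9 ≠ 8) : NoSplit (DD q p f e I) ↔ (lapl A d f e I).det ≠ 0 := by
  have hcls := h.cls hf he I h1 h8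
  have hpf : (DD q p f e I).primeFactors = (Finset.insertNone I).image (PP q p) := by
    rw [DD_eq]
    exact mem_pf h.PPp (EEp hf he)
  have hqm : q ∈ (DD q p f e I).primeFactors := by
    rw [hpf]
    exact Finset.mem_image.2 ⟨none, Finset.mem_insertNone.2 (by simp), rfl⟩
  have hpm : ∀ i ∈ I, p i ∈ (DD q p f e I).primeFactors := fun i hi => by
    rw [hpf]
    exact Finset.mem_image.2 ⟨some i, Finset.mem_insertNone.2 (by simpa using hi), rfl⟩
  have hsol : ∀ c : ℕ → ZMod 3, SolW (MD (DD q p f e I)) (DD q p f e I).primeFactors c ↔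
      (lapl A d f e I).mulVec (fun j => c (p j) - c q) = 0 := by
    intro c
    constructor
    · intro hc
      funext i
      exact (h.sum hf he I c i.2).1 (hc (p i) (hpm i i.2) (h.hp i).2)
    · intro hc r hr hr1
      rw [hpf, Finset.mem_image] at hr
      obtain ⟨k, hk, rfl⟩ := hr
      rcases k with _ | i
      · exfalso
        have := h.q3
        change q % 3 = 1 at hr1
        omega
      · have hi : i ∈ I := by simpa using hk
        exact (h.sum hf he I c hi).2 (congrFun hc ⟨i, hi⟩)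
  constructor
  · intro hn hdet
    have hg := Pool.Agent.R419.CF.NS.gdw_of_nosplit hL hcls hn
    obtain ⟨v, hv0, hv⟩ := Matrix.exists_mulVec_eq_zero_iff.2 hdet
    apply hv0
    let c : ℕ → ZMod 3 := fun r => if hr : ∃ i, ∃ hi : i ∈ I, p i = r then
      v ⟨hr.choose, hr.choose_spec.choose⟩ else 0
    have hcq : c q = 0 := dif_neg fun ⟨i, _, h3⟩ => h.ne i h3
    have hcp : ∀ i (hi : i ∈ I), c (p i) = v ⟨i, hi⟩ := by
      intro i hi
      have hr : ∃ i', ∃ _ : i' ∈ I, p i' = p i := ⟨i, hi, rfl⟩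
      show (if hr : ∃ i', ∃ hi' : i' ∈ I, p i' = p i then
        v ⟨hr.choose, hr.choose_spec.choose⟩ else 0) = _
      rw [dif_pos hr]
      congr 1
      exact Subtype.ext (h.inj hr.choose_spec.choose_spec)
    have h4 : (fun j : I => c (p j) - c q) = v := by
      funext j
      rw [hcq, sub_zero, hcp j j.2]
    have h5 := hg c ((hsol c).2 (by rw [h4]; exact hv))
    funext i
    have h6 := h5 (p i) (hpm i i.2) q hqm
    rw [hcp i i.2, hcq] at h6
    exact h6
  · intro hdet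
    refine Pool.Agent.R419.CF.NS.nosplit_of_gdw hL hcls fun c hc => ?_
    have h2 := (hsol c).1 hc
    have h3 : (fun j : I => c (p j) - c q) = 0 := by
      by_contra h4
      exact hdet (Matrix.exists_mulVec_eq_zero_iff.1 ⟨_, h4, h2⟩)
    have h5 : ∀ r ∈ (DD q p f e I).primeFactors, c r = c q := by
      intro r hr
      rw [hpf, Finset.mem_image] at hr
      obtain ⟨k, hk, rfl⟩ := hr
      rcases k with _ | i
      · rfl
      · have hi : i ∈ I := by simpa using hk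
        exact sub_eq_zero.1 (congrFun h3 ⟨i, hi⟩)
    intro r hr r' hr'
    rw [h5 r hr, h5 r' hr']

end crit

end Pool.Agent.T2H26.CM
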