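import Pool.Agent.R432.C3
import Pool.Agent.Y350.CT.REC

/-!
# Primary Eisenstein primes of degree one with prescribed cubic symbols and prescribed norm modulo nine
-/

set_option autoImplicit false

open Polynomial NumberField

namespace Pool.Agent.T2H26.CM

open Pool.Agent.Y692.QS
open Pool.Agent.Y715.T.Rec (cs nn)
open Pool.Agent.Y715.T.RecG (Pq)
open Pool.Agent.W401.Cheb (xp HasFrob infinite_frob)
open Pool.Agent.R432.C (exists_field exists_gal q_of_p isUnit_w pq_dvd)

/-- the symbol of `w` and the norm modulo nine -/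
lemma nine_of_cs_w {q : Ei} (hq : Pq q) {c : ZMod 3} (h : cs q w = c) :
    nr q % 9 = 1 + 3 * (c.val : ℤ) := by
  have h1 := Pool.Agent.Y715.T.RecC.nr_nn hq.prime hq.norm
  have h2 : cs q w = (nn q : ZMod 3) := by
    apply Pool.Agent.Y715.T.RecG.cs_of hq.prime hq.norm
    have h3 : (w : Ei) ^ ((nn q : ZMod 3)).val = w ^ nn q := by
      rw [ZMod.val_natCast]
      conv_rhs => rw [← Nat.div_add_mod (nn q) 3, pow_add, pow_mul, w_cube, one_pow, one_mul]
    rw [h3, sub_self]
    exact dvd_zero _
  rw [h] at h2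
  have h3 : c.val = nn q % 3 := by rw [h2, ZMod.val_natCast]
  have h4 := nr_nonneg q
  omega

/-- **Primes of degree one with prescribed symbols and norm modulo nine, arbitrarily large.** -/
theorem exists_q (P : Finset Ei) (hP : ∀ p ∈ P, Pq p) (ε : Ei → ZMod 3) (c : ZMod 3) (B : ℕ) :
    ∃ q : Ei, Pq q ∧ (nr q).natAbs.Prime ∧ B < (nr q).natAbs ∧
      nr q % 9 = 1 + 3 * (c.val : ℤ) ∧ ∀ p ∈ P, cs q p = ε p := by
  classical
  have hwP : w ∉ P := fun h => (hP _ h).prime.not_isUnit isUnit_w
  obtain ⟨L, _, _, _, j, ρ, hρ⟩ := exists_field (insert w P)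
  have hinj : Function.Injective j := by
    rw [injective_iff_map_eq_zero]
    intro a ha
    by_contra h0
    have h3 : j ((nr a : ℤ) : Ei) = 0 := by
      rw [← mul_star, map_mul, ha, zero_mul]
    rw [map_intCast] at h3
    have h4 : nr a = 0 := by exact_mod_cast h3
    exact h0 (nr_zero_iff.1 h4)
  let _ : Algebra (FractionRing Ei) L :=
    (IsFractionRing.lift (K := FractionRing Ei) hinj).toAlgebra
  obtain ⟨g, hg1, hg2⟩ := exists_gal (k := FractionRing Ei) j
    (fun g => IsFractionRing.lift_algebraMap hinj g) hP ρ hρ (fun x => if x = w then c else ε x)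
  obtain ⟨p, ⟨hp, hxp⟩, hpB⟩ := (infinite_frob L g).exists_gt
    (max (max B 3) (P.sup fun q : Ei => (nr q).natAbs))
  have hpB1 : B < p := lt_of_le_of_lt ((le_max_left _ _).trans (le_max_left _ _)) hpB
  have hp3 : 3 < p := lt_of_le_of_lt ((le_max_right _ _).trans (le_max_left _ _)) hpB
  have hpP : ∀ x ∈ P, (nr x).natAbs < p := fun x hx => lt_of_le_of_lt
    ((Finset.le_sup (f := fun q : Ei => (nr q).natAbs) hx).trans (le_max_right _ _)) hpB
  obtain ⟨q, hq, hqn, hcs⟩ := q_of_p j ρ hρ _ g hg1 hg2 hp (by omega) hxp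
  refine ⟨q, hq, by rw [hqn]; exact hp, by rw [hqn]; exact hpB1, ?_, ?_⟩
  · apply nine_of_cs_w hq
    have h1 := hcs w (Finset.mem_insert_self _ _) (fun h => hq.prime.not_isUnit
      (isUnit_of_dvd_unit h isUnit_w))
    rw [if_pos rfl] at h1
    exact h1
  · intro p' hp'
    have h1 := hcs p' (Finset.mem_insert_of_mem hp') (fun h => by
      have h2 := pq_dvd hq (hP p' hp') h
      have h3 := hpP p' hp'
      rw [← h2, hqn] at h3
      exact lt_irrefl _ h3)
    rw [if_neg (fun h : p' = w => hwP (by rw [← h]; exact hp'))] at h1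
    exact h1

/-- sequences by strong recursion -/
theorem exists_seq {α : Type} [Inhabited α] (G : ℕ → α → Prop) (R : ℕ → α → ℕ → α → Prop)
    (h : ∀ (n : ℕ) (f : ℕ → α), (∀ i < n, G i (f i)) → (∀ i j, i < j → j < n → R i (f i) j (f j)) →
      ∃ y, G n y ∧ ∀ i < n, R i (f i) n y) :
    ∃ f : ℕ → α, (∀ n, G n (f n)) ∧ ∀ i j, i < j → R i (f i) j (f j) := by
  classical
  choose! y hy using h
  let g : ℕ → ℕ → α := fun n => Nat.rec (fun _ => default) (fun m f => Function.update f m (y m f)) n
  have hg : ∀ n, g (n + 1) = Function.update (g n) n (y n (g n)) := fun n => rfl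
  have hst : ∀ k n i, i < n → g (n + k) i = g n i := by
    intro k
    induction k with
    | zero => intro n i _; rfl
    | succ k ih =>
      intro n i hi
      rw [← Nat.add_assoc, hg, Function.update_of_ne (by omega), ih n i hi]
  have hst' : ∀ m i, i < m → g m i = g (i + 1) i := by
    intro m i hi
    have h1 := hst (m - (i + 1)) (i + 1) i (by omega)
    rwa [show i + 1 + (m - (i + 1)) = m by omega] at h1
  have hval : ∀ n, g (n + 1) n = y n (g n) := fun n => by rw [hg, Function.update_self]
  have key : ∀ n, (∀ i < n, G i (g n i)) ∧ ∀ i j, i < j → j < n → R i (g n i) j (g n j) := by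
    intro n
    induction n with
    | zero => exact ⟨fun i hi => by omega, fun i j _ hj => by omega⟩
    | succ n ih =>
      refine ⟨fun i hi => ?_, fun i j hij hj => ?_⟩
      · rcases Nat.lt_succ_iff_lt_or_eq.1 hi with h1 | h1
        · rw [hg, Function.update_of_ne (by omega)]
          exact ih.1 i h1
        · subst h1
          rw [hval]
          exact (hy i (g i) ih.1 ih.2).1
      · rw [hg, Function.update_of_ne (by omega : i ≠ n)]
        rcases Nat.lt_succ_iff_lt_or_eq.1 hj with h1 | h1
        · rw [Function.update_of_ne (by omega : j ≠ n)]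
          exact ih.2 i j hij h1
        · subst h1
          rw [Function.update_self]
          exact (hy j (g j) ih.1 ih.2).2 i hij
  refine ⟨fun n => g (n + 1) n, fun n => (key (n + 1)).1 n (Nat.lt_succ_self n), fun i j hij => ?_⟩
  have h1 := (hy j (g j) (key j).1 (key j).2).2 i hij
  rw [hst' j i hij] at h1
  show R i (g (i + 1) i) j (g (j + 1) j)
  rw [hval j]
  exact h1

lemma nr_star (x : Ei) : nr (star x) = nr x := by
  unfold nr
  rw [QuadraticAlgebra.re_star, QuadraticAlgebra.im_star]
  ring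

lemma star_ne {x : Ei} (hx : (nr x).natAbs.Prime) (h3 : 3 < (nr x).natAbs) : star x ≠ x := by
  intro h
  have h1 := congrArg QuadraticAlgebra.im h
  rw [QuadraticAlgebra.im_star] at h1
  have h2 : x.im = 0 := by omega
  have h4 : nr x = x.re ^ 2 := by
    unfold nr
    rw [h2]
    ring
  rw [h4, Int.natAbs_pow] at hx
  exact (Nat.Prime.not_prime_pow (le_refl 2)) hx

/-- **Infinite sequences of primes with prescribed symbols.** -/
theorem exists_primes (P0 : Finset Ei) (hP0 : ∀ p ∈ P0, Pq p) (a b : ℕ → ℕ → ZMod 3)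
    (d : ℕ → Ei → ZMod 3) (c : ℕ → ZMod 3) (B : ℕ) :
    ∃ π : ℕ → Ei, (∀ n, Pq (π n) ∧ (nr (π n)).natAbs.Prime ∧ B < (nr (π n)).natAbs ∧
        nr (π n) % 9 = 1 + 3 * ((c n).val : ℤ) ∧ ∀ x ∈ P0, cs (π n) x = d n x) ∧
      ∀ i j, i < j → (nr (π i)).natAbs < (nr (π j)).natAbs ∧ cs (π j) (π i) = a i j ∧
        cs (π j) (star (π i)) = b i j := by
  classical
  have : Inhabited Ei := ⟨0⟩
  set B0 : ℕ := max (max B 3) (P0.sup fun q : Ei => (nr q).natAbs) with hB0
  have hB01 : B ≤ B0 := (le_max_left _ _).trans (le_max_left _ _)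
  have hB02 : 3 ≤ B0 := (le_max_right _ _).trans (le_max_left _ _)
  have hB03 : ∀ x ∈ P0, (nr x).natAbs ≤ B0 := fun x hx =>
    (Finset.le_sup (f := fun q : Ei => (nr q).natAbs) hx).trans (le_max_right _ _)
  obtain ⟨π, h1, h2⟩ := exists_seq (α := Ei)
    (fun n q => Pq q ∧ (nr q).natAbs.Prime ∧ B0 < (nr q).natAbs ∧
        nr q % 9 = 1 + 3 * ((c n).val : ℤ) ∧ ∀ x ∈ P0, cs q x = d n x)
    (fun i x j q => (nr x).natAbs < (nr q).natAbs ∧ cs q x = a i j ∧ cs q (star x) = b i j) (by
      intro n f hG hR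
      have hinj : ∀ i j, i < n → j < n → (nr (f i)).natAbs = (nr (f j)).natAbs → i = j := by
        intro i j hi hj h
        rcases lt_trichotomy i j with h1 | h1 | h1
        · have := (hR i j h1 hj).1; omega
        · exact h1
        · have := (hR j i h1 hi).1; omega
      set P : Finset Ei := P0 ∪ (Finset.range n).image f ∪ (Finset.range n).image fun i => star (f i)
        with hP
      have hPq : ∀ p ∈ P, Pq p := by
        intro p hp
        rw [hP, Finset.mem_union, Finset.mem_union, Finset.mem_image, Finset.mem_image] at hp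
        rcases hp with (hp | ⟨i, hi, rfl⟩) | ⟨i, hi, rfl⟩
        · exact hP0 p hp
        · exact (hG i (Finset.mem_range.1 hi)).1
        · exact Pool.Agent.Y350.CT.pq_star (hG i (Finset.mem_range.1 hi)).1
      obtain ⟨q, q1, q2, q3, q4, q5⟩ := exists_q P hPq (fun x =>
        if h : ∃ i, i < n ∧ x = f i then a h.choose n else
        if h : ∃ i, i < n ∧ x = star (f i) then b h.choose n else d n x) (c n)
        (max B0 (P.sup fun q : Ei => (nr q).natAbs))
      have q31 : B0 < (nr q).natAbs := lt_of_le_of_lt (le_max_left _ _) q3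
      have q32 : ∀ x ∈ P, (nr x).natAbs < (nr q).natAbs := fun x hx => lt_of_le_of_lt
        ((Finset.le_sup (f := fun q : Ei => (nr q).natAbs) hx).trans (le_max_right _ _)) q3
      have hmem1 : ∀ i < n, f i ∈ P := fun i hi => by
        rw [hP]
        exact Finset.mem_union_left _ (Finset.mem_union_right _
          (Finset.mem_image_of_mem f (Finset.mem_range.2 hi)))
      have hmem2 : ∀ i < n, star (f i) ∈ P := fun i hi => by
        rw [hP]
        exact Finset.mem_union_right _
          (Finset.mem_image_of_mem (fun i => star (f i)) (Finset.mem_range.2 hi))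
      have hmem0 : ∀ x ∈ P0, x ∈ P := fun x hx => by
        rw [hP]
        exact Finset.mem_union_left _ (Finset.mem_union_left _ hx)
      refine ⟨q, ⟨q1, q2, q31, q4, fun x hx => ?_⟩, fun i hi => ⟨q32 _ (hmem1 i hi), ?_, ?_⟩⟩
      · rw [q5 x (hmem0 x hx)]
        have e1 : ¬ ∃ i, i < n ∧ x = f i := by
          rintro ⟨i, hi, rfl⟩
          have h1 := hB03 _ hx
          have h2 := (hG i hi).2.2.1
          omega
        have e2 : ¬ ∃ i, i < n ∧ x = star (f i) := by
          rintro ⟨i, hi, rfl⟩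
          have h1 := hB03 _ hx
          have h2 := (hG i hi).2.2.1
          rw [nr_star] at h1
          omega
        rw [dif_neg e1, dif_neg e2]
      · rw [q5 _ (hmem1 i hi)]
        have e1 : ∃ i', i' < n ∧ f i = f i' := ⟨i, hi, rfl⟩
        rw [dif_pos e1]
        have e2 := e1.choose_spec
        have e3 : e1.choose = i := hinj _ _ e2.1 hi (by rw [← e2.2])
        rw [e3]
      · rw [q5 _ (hmem2 i hi)]
        have e0 : ¬ ∃ i', i' < n ∧ star (f i) = f i' := by
          rintro ⟨i', hi', h⟩
          have h1 : i = i' := hinj _ _ hi hi' (by rw [← h, nr_star])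
          subst h1
          have h2 := (hG i hi).2.2.1
          exact star_ne (hG i hi).2.1 (by omega) h
        have e1 : ∃ i', i' < n ∧ star (f i) = star (f i') := ⟨i, hi, rfl⟩
        rw [dif_neg e0, dif_pos e1]
        have e2 := e1.choose_spec
        have e3 : e1.choose = i := hinj _ _ e2.1 hi (by rw [← nr_star, ← e2.2, nr_star])
        rw [e3])
  exact ⟨π, fun n => ⟨(h1 n).1, (h1 n).2.1, lt_of_le_of_lt hB01 (h1 n).2.2.1, (h1 n).2.2.2.1,
    (h1 n).2.2.2.2⟩, h2⟩

end Pool.Agent.T2H26.CM
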