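import Pool.Agent.T2H26.CM.Prim
import Pool.Agent.T2H26.CM.Crit
import Pool.Agent.Y333.CX.LAM

/-!
# Rational primes with prescribed cubic residues
-/

set_option autoImplicit false

open scoped Classical

namespace Pool.Agent.T2H26.CM

open Pool.Agent.Y692.QS
open Pool.Agent.Y703.CX (LamP lam pp)
open Pool.Agent.Y715.T.Rec (cs)
open Pool.Agent.Y715.T.RecG (Pq)
open Pool.Agent.R432.C (pq_dvd)

/-- a cubic logarithm modulo `p`: a homomorphism from the numbers prime to `p` to the field with three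
elements, which is zero exactly at the cubes modulo `p` -/
def IsLog (p : ℕ) (χ : ℕ → ZMod 3) : Prop :=
  (∀ m n : ℕ, ¬ p ∣ m → ¬ p ∣ n → χ (m * n) = χ m + χ n) ∧
  ∀ n : ℕ, ¬ p ∣ n → (χ n = 0 ↔ ∃ x : ℤ, (p : ℤ) ∣ (n : ℤ) - x ^ 3)

lemma nr_nat (n : ℕ) : nr (n : Ei) = (n : ℤ) ^ 2 := by
  unfold nr
  rw [QuadraticAlgebra.re_natCast, QuadraticAlgebra.im_natCast]
  ring

lemma star_nat (n : ℕ) : star (n : Ei) = (n : Ei) := by
  ext
  · rw [QuadraticAlgebra.re_star, QuadraticAlgebra.re_natCast, QuadraticAlgebra.im_natCast]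
    ring
  · rw [QuadraticAlgebra.im_star, QuadraticAlgebra.im_natCast]
    ring

/-- a prime of norm `p` does not divide `n` if `p` does not divide `n` -/
lemma not_dvd_nat {π : Ei} {p n : ℕ} (hp : p.Prime) (hπ : nr π = p) (hn : ¬ p ∣ n) :
    ¬ π ∣ (n : Ei) := by
  rintro ⟨x, hx⟩
  have h1 := congrArg nr hx
  rw [nr_mul, nr_nat, hπ] at h1
  have h2 : (p : ℤ) ∣ (n : ℤ) ^ 2 := ⟨_, h1⟩
  have h3 : p ∣ n ^ 2 := by exact_mod_cast h2
  exact hn (hp.dvd_of_dvd_pow h3)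

lemma pp_or (hL : LamP) {π : Ei} {p : ℕ} (hp : p.Prime) (hp1 : p % 3 = 1) (hπ : Pq π)
    (hn : nr π = p) : pp p = π ∨ pp p = star π := by
  obtain ⟨h1, h2⟩ := hL.ex p hp hp1
  have h3 : pp p ∣ π * star π := by
    rw [mul_star, hn, ← h2, ← mul_star]
    exact dvd_mul_right _ _
  rcases h1.prime.dvd_or_dvd h3 with h | h
  · exact Or.inl (pq_dvd h1 hπ h)
  · exact Or.inr (pq_dvd h1 (Pool.Agent.Y350.CT.pq_star hπ) h)

lemma lam_or (hL : LamP) {π : Ei} {p : ℕ} (hp : p.Prime) (hp1 : p % 3 = 1) (hπ : Pq π)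
    (hn : nr π = p) : ∃ s : ZMod 3, s * s = 1 ∧ ∀ n : ℕ, ¬ p ∣ n → lam p n = s * cs π (n : Ei) := by
  unfold lam
  rcases pp_or hL hp hp1 hπ hn with h | h
  · exact ⟨1, by decide, fun n _ => by rw [h, one_mul]⟩
  · refine ⟨-1, by decide, fun n hn' => ?_⟩
    rw [h]
    have h1 := Pool.Agent.Y350.CT.cs_star hπ (not_dvd_nat hp hn hn')
    rw [star_nat] at h1
    rw [h1]
    ring

lemma isLog (hL : LamP) {π : Ei} {p : ℕ} (hp : p.Prime) (hp1 : p % 3 = 1) (hπ : Pq π)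
    (hn : nr π = p) : IsLog p fun n => cs π (n : Ei) := by
  obtain ⟨s, hs, h⟩ := lam_or hL hp hp1 hπ hn
  have h' : ∀ n : ℕ, ¬ p ∣ n → cs π (n : Ei) = s * lam p n := by
    intro n hn'
    rw [h n hn', ← mul_assoc, hs, one_mul]
  have hs0 : s ≠ 0 := by
    rintro rfl
    exact absurd hs (by decide)
  refine ⟨fun m n hm hn' => ?_, fun n hn' => ?_⟩
  · have hmn : ¬ p ∣ m * n := fun hd => (hp.dvd_mul.1 hd).elim hm hn'
    show cs π ((m * n : ℕ) : Ei) = cs π (m : Ei) + cs π (n : Ei)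
    rw [h' _ hmn, h' m hm, h' n hn', hL.mul p m n hp hp1 hm hn', mul_add]
  · show cs π (n : Ei) = 0 ↔ _
    rw [h' n hn', mul_eq_zero, or_iff_right hs0, hL.cube p n hp hp1 hn']

/-- **Rational primes with an arbitrary matrix of cubic residue symbols.** -/
theorem exists_rat (hL : LamP) {q : ℕ} (hq : q.Prime) (hq3 : q % 3 = 2) (A : ℕ → ℕ → ZMod 3)
    (d : ℕ → ZMod 3) (c : ℕ → ZMod 3) (B : ℕ) :
    ∃ (p : ℕ → ℕ) (χ : ℕ → ℕ → ZMod 3), StrictMono p ∧ (∀ i, B < p i) ∧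
      (∀ i, p i % 9 = 1 + 3 * (c i).val) ∧ (∀ i, IsLog (p i) (χ i)) ∧ (∀ i, χ i q = d i) ∧
      (∀ i j, i ≠ j → χ i (p j) = A i j) ∧ Hyp q p A d := by
  have hqP : Pq (-(q : Ei)) := by
    obtain ⟨p, hp, hp1⟩ : ∃ p : ℕ, p.Prime ∧ p % 3 = 1 := ⟨7, by norm_num, by norm_num⟩
    exact (hL.rec2 p q hp hp1 hq hq3).1
  obtain ⟨π, h1, h2⟩ := exists_primes {-(q : Ei)} (fun x hx => by
    rw [Finset.mem_singleton.1 hx]
    exact hqP) (fun i j => -(A i j + A j i)) (fun i j => A i j - A j i) (fun j _ => d j) c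
    (max B (max q 3))
  set p : ℕ → ℕ := fun i => (nr (π i)).natAbs with hpdef
  have hn : ∀ i, nr (π i) = (p i : ℤ) := fun i => by
    rw [hpdef]
    exact (Int.natAbs_of_nonneg (nr_nonneg _)).symm
  have hp9 : ∀ i, p i % 9 = 1 + 3 * (c i).val := by
    intro i
    have h3 := (h1 i).2.2.2.1
    rw [hn i] at h3
    exact_mod_cast h3
  have hp1 : ∀ i, p i % 3 = 1 := by
    intro i
    have h3 := hp9 i
    omega
  have hpp : ∀ i, (p i).Prime := fun i => (h1 i).2.1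
  have hB : ∀ i, max B (max q 3) < p i := fun i => (h1 i).2.2.1
  have hmono : StrictMono p := by
    intro i j hij
    exact (h2 i j hij).1
  have hinj := hmono.injective
  have hndq : ∀ i, ¬ p i ∣ q := by
    intro i hd
    have h3 := (Nat.prime_dvd_prime_iff_eq (hpp i) hq).1 hd
    have h4 := lt_of_le_of_lt ((le_max_left q 3).trans (le_max_right B _)) (hB i)
    omega
  have hnd : ∀ i j, i ≠ j → ¬ p i ∣ p j := by
    intro i j hij hd
    exact hij (hinj ((Nat.prime_dvd_prime_iff_eq (hpp i) (hpp j)).1 hd))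
  have hA : ∀ i j, i < j → cs (π j) (p i : Ei) = A j i ∧ cs (π i) (p j : Ei) = A i j := by
    intro i j hij
    obtain ⟨-, h4, h5⟩ := h2 i j hij
    have hne : nr (π i) ≠ nr (π j) := by
      rw [hn, hn]
      intro h6
      exact hij.ne (hinj (by exact_mod_cast h6))
    have hne' : nr (π i) ≠ nr (star (π j)) := by
      rw [nr_star]
      exact hne
    have hsi := Pool.Agent.Y350.CT.pq_star (h1 i).1
    have hsj := Pool.Agent.Y350.CT.pq_star (h1 j).1
    have ei : ((p i : ℕ) : Ei) = π i * star (π i) := by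
      rw [mul_star, hn i]
      norm_cast
    have ej : ((p j : ℕ) : Ei) = π j * star (π j) := by
      rw [mul_star, hn j]
      norm_cast
    have n1 : ¬ π j ∣ π i := Pool.Agent.Y715.T.RecG.not_dvd (h1 i).1 (h1 j).1 hne
    have n2 : ¬ π j ∣ star (π i) := Pool.Agent.Y715.T.RecG.not_dvd hsi (h1 j).1
      (by rw [nr_star]; exact hne)
    have n3 : ¬ π i ∣ π j := Pool.Agent.Y715.T.RecG.not_dvd (h1 j).1 (h1 i).1 hne.symm
    have n4 : ¬ π i ∣ star (π j) := Pool.Agent.Y715.T.RecG.not_dvd hsj (h1 i).1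
      (by rw [nr_star]; exact hne.symm)
    have a1 : cs (π j) (p i : Ei) = cs (π j) (π i) + cs (π j) (star (π i)) := by
      rw [ei]
      exact Pool.Agent.Y715.T.RecG.cs_mul (h1 j).1.prime (h1 j).1.norm n1 n2
    have a2 : cs (π i) (p j : Ei) = cs (π i) (π j) + cs (π i) (star (π j)) := by
      rw [ej]
      exact Pool.Agent.Y715.T.RecG.cs_mul (h1 i).1.prime (h1 i).1.norm n3 n4
    have a3 : cs (π i) (π j) = cs (π j) (π i) :=
      Pool.Agent.Y715.T.RecG.cs_comm (h1 j).1 (h1 i).1 hne.symm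
    have a4 : cs (π i) (star (π j)) = cs (star (π j)) (π i) :=
      Pool.Agent.Y715.T.RecG.cs_comm hsj (h1 i).1 (by rw [nr_star]; exact hne.symm)
    have a5 : cs (star (π j)) (π i) = - cs (π j) (star (π i)) := by
      have h6 := Pool.Agent.Y350.CT.cs_star (h1 j).1 n2
      rwa [star_star] at h6
    rw [a1, a2, a3, a4, a5, h4, h5]
    have h7 : ∀ x y : ZMod 3, -(x + y) + (x - y) = y ∧ -(x + y) + -(x - y) = x := by decide
    exact h7 _ _
  have hq' : ∀ i, cs (π i) (q : Ei) = d i := by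
    intro i
    have h3 := (h1 i).2.2.2.2 (-(q : Ei)) (Finset.mem_singleton_self _)
    have h4 := Pool.Agent.Y715.T.RecG.cs_neg (h1 i).1.prime (h1 i).1.norm
      (not_dvd_nat (hpp i) (hn i) (hndq i))
    rw [← h4]
    exact h3
  have hA' : ∀ i j, i ≠ j → cs (π i) (p j : Ei) = A i j := by
    intro i j hij
    rcases lt_or_gt_of_ne hij with h | h
    · exact (hA i j h).2
    · exact (hA j i h).1
  refine ⟨p, fun i n => cs (π i) (n : Ei), hmono, fun i => lt_of_le_of_lt (le_max_left _ _) (hB i),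
    hp9, fun i => isLog hL (hpp i) (hp1 i) (h1 i).1 (hn i), hq', hA', ⟨hq, hq3,
    fun i => ⟨hpp i, hp1 i⟩, hinj, fun i => ?_⟩⟩
  obtain ⟨s, hs, h⟩ := lam_or hL (hpp i) (hp1 i) (h1 i).1 (hn i)
  refine ⟨s, ?_, ?_, fun j hj => ?_⟩
  · rintro rfl
    exact absurd hs (by decide)
  · rw [h q (hndq i), hq' i]
  · rw [h (p j) (hnd i j hj.symm), hA' i j hj.symm]

end Pool.Agent.T2H26.CM
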